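import Pool.Agent.H90.STE.Stmts
import Pool.Agent.H27.STK.CDS
import Pool.Agent.H58.STK.ZD
import Pool.Agent.H62.STK.Z2

/-!
# Small doubling at the vertices of a cube of times, with side information
-/

set_option autoImplicit false

namespace Pool.STE.SX

open Finset Real
open Pool.Agent.H49.Ent Pool.Agent.H32.Dense Pool.STK Pool.KA

section General

variable {Ω : Type} [Fintype Ω] {S T U : Type}

/-- two conditions which are equivalent on the support -/
def Eqv (p : Ω → ℝ) (W : Ω → T) (W' : Ω → U) : Prop := Det p W W' ∧ Det p W' W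

lemma CH_eqv {p : Ω → ℝ} (hp : ∀ ω, 0 ≤ p ω) (X : Ω → S) {W : Ω → T} {W' : Ω → U}
    (h : Eqv p W W') : CH p X W = CH p X W' :=
  CH_congr hp (fun _ _ _ _ e => (Prod.ext_iff.mp e).1) (fun _ _ _ _ e => (Prod.ext_iff.mp e).1)
    h.1 h.2

lemma law_eqv {p : Ω → ℝ} (hp : ∀ ω, 0 ≤ p ω) {W : Ω → T} {W' : Ω → U}
    (h : Eqv p W W') {x : Ω} (hx : 0 < p x) : law p W (W x) = law p W' (W' x) := by
  classical
  unfold law
  refine Finset.sum_congr rfl fun ω _ => ?_
  rcases (hp ω).eq_or_lt with h0 | h0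
  · simp [← h0]
  · by_cases e : W ω = W x
    · rw [if_pos e, if_pos (h.1 ω x h0 hx e)]
    · rw [if_neg e, if_neg fun e' => e (h.2 ω x h0 hx e')]

lemma dbl_eqv {p : Ω → ℝ} (hp : ∀ ω, 0 ≤ p ω) {W : Ω → T} {W' : Ω → U}
    (h : Eqv p W W') : dbl p W = dbl p W' := by
  classical
  funext v
  unfold dbl glue
  rcases (hp v.1).eq_or_lt with h0 | h0
  · simp [← h0]
  · rcases (hp v.2).eq_or_lt with h1 | h1
    · simp [← h1]
    · by_cases e : W v.1 = W v.2
      · rw [if_pos e, if_pos (h.1 _ _ h0 h1 e), law_eqv hp h h0]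
      · rw [if_neg e, if_neg fun e' => e (h.2 _ _ h0 h1 e')]

lemma dbl_pos {p : Ω → ℝ} (hp : ∀ ω, 0 ≤ p ω) {W : Ω → T} {v : Ω × Ω} (hv : 0 < dbl p W v) :
    0 < p v.1 ∧ 0 < p v.2 := by
  classical
  unfold dbl glue at hv
  split_ifs at hv with e
  · rcases (hp v.1).eq_or_lt with h0 | h0
    · simp [← h0] at hv
    · rcases (hp v.2).eq_or_lt with h1 | h1
      · simp [← h1] at hv
      · exact ⟨h0, h1⟩
  · exact absurd hv (lt_irrefl _)

/-- the doubling is nonnegative -/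
lemma dbl_nn {m : ℕ} {p : Ω → ℝ} (hp : ∀ ω, 0 ≤ p ω) (X : Ω → Fin m → ℤ) (b : Ω → T) :
    CH p X b ≤ CH (dbl p b) (fun w => X w.2 - X w.1) (fun w => b w.1) := by
  have hq : ∀ w, 0 ≤ dbl p b w := dbl_nonneg hp
  have h1 : CH (dbl p b) (fun w => X w.2 - X w.1) (fun w => (b w.2, w.1)) ≤
      CH (dbl p b) (fun w => X w.2 - X w.1) (fun w => b w.1) :=
    CH_mono_cond hq fun w w' _ _ e => congrArg b (Prod.ext_iff.mp e).2
  have h2 : CH (dbl p b) (fun w => X w.2 - X w.1) (fun w => (b w.2, w.1)) =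
      CH (dbl p b) (fun w => X w.2) (fun w => (b w.2, w.1)) := by
    refine CH_congr hq ?_ ?_ (fun _ _ _ _ h => h) (fun _ _ _ _ h => h)
    · intro w w' _ _ e
      simp only [Prod.mk.injEq] at e
      obtain ⟨e1, -, e3⟩ := e
      rw [e3] at e1
      exact sub_left_inj.mp e1
    · intro w w' _ _ e
      simp only [Prod.mk.injEq] at e
      obtain ⟨e1, -, e3⟩ := e
      simp only [e1, e3]
  have h3 : CH (dbl p b) (fun w => X w.2) (fun w => (b w.2, w.1)) = CH p X b :=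
    CH_dbl_2 hp X (fun ω => ω)
  linarith

end General

variable {m J n : ℕ}

/-- the zoomed position at the time of the sample -/
noncomputable def Xz (F : Fam m J) (i j : ℕ) (ω : F.Ω) : Fin m → ℤ :=
  Xp (zo i F.u) (zo i F.d) (F.t ω) j ω

lemma Xz_eq (F : Fam m J) (i j : ℕ) (ω : F.Ω) (c : Fin m) :
    Xz F i j ω c = ⌊2 ^ (i + j) * (F.u ω c + F.t ω * F.d ω c) -
      2 ^ j * (((F.L i ω).1 c : ℝ) + F.t ω * ((F.L i ω).2 c : ℝ))⌋ :=
  ZX.zoom_eq F.u F.d i j (F.t ω) ω c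

lemma X_eq (F : Fam m J) (j : ℕ) (ω : F.Ω) (c : Fin m) :
    F.X j ω c = ⌊2 ^ j * (F.u ω c + F.t ω * F.d ω c)⌋ := rfl

lemma t_eq (F : Fam m J) {ω ω' : F.Ω} (h : F.T ω = F.T ω') : F.t ω = F.t ω' := by
  unfold Fam.t; rw [h]

/-- `X` and `Xz`, given the coarse line and the time -/
lemma zoom_le (F : Fam m J) (k r : ℕ) :
    CH F.p (Xz F (r * k) k) (bT F k r) ≤ CH F.p (F.X (r * k + k)) (bT F k r) + cc m := by
  refine ZX.CH_le_round F.isLaw _ _ _ ?_
  intro ω ω' _ _ hW hY c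
  have hL : F.L (r * k) ω = F.L (r * k) ω' := (Prod.ext_iff.mp hW).1
  have hT : F.t ω = F.t ω' := t_eq F (Prod.ext_iff.mp (Prod.ext_iff.mp hW).2).1
  have hk := congrFun hY c
  rw [X_eq, X_eq] at hk
  have h2 := ZX.floor_sub (c := (2 ^ k * (((F.L (r * k) ω').1 c : ℝ) +
    F.t ω' * ((F.L (r * k) ω').2 c : ℝ)))) hk
  rw [Xz_eq, Xz_eq, hL, hT]
  rw [hT] at h2
  linarith

lemma zoom_ge (F : Fam m J) (k r : ℕ) :
    CH F.p (F.X (r * k + k)) (bT F k r) ≤ CH F.p (Xz F (r * k) k) (bT F k r) + cc m := by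
  refine ZX.CH_le_round F.isLaw _ _ _ ?_
  intro ω ω' _ _ hW hY c
  have hL : F.L (r * k) ω = F.L (r * k) ω' := (Prod.ext_iff.mp hW).1
  have hT : F.t ω = F.t ω' := t_eq F (Prod.ext_iff.mp (Prod.ext_iff.mp hW).2).1
  have hk := congrFun hY c
  rw [Xz_eq, Xz_eq, hL, hT] at hk
  have h2 := ZX.floor_sub (c := -(2 ^ k * (((F.L (r * k) ω').1 c : ℝ) +
    F.t ω' * ((F.L (r * k) ω').2 c : ℝ)))) hk
  rw [sub_neg_eq_add, sub_neg_eq_add, sub_add_cancel, sub_add_cancel] at h2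
  rw [X_eq, X_eq, hT]
  linarith

/-- the differences -/
lemma zoom_dbl (F : Fam m J) (k r : ℕ) :
    CH (dbl F.p (bT F k r)) (fun w => Xz F (r * k) k w.2 - Xz F (r * k) k w.1)
        (fun w => bT F k r w.1) ≤
      CH (dbl F.p (bT F k r)) (fun w => F.X (r * k + k) w.2 - F.X (r * k + k) w.1)
        (fun w => bT F k r w.1) + cc m := by
  have key : ∀ w : F.Ω × F.Ω, 0 < dbl F.p (bT F k r) w → ∀ c : Fin m,
      |(((Xz F (r * k) k w.2 - Xz F (r * k) k w.1) c : ℤ) : ℝ) -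
        (((F.X (r * k + k) w.2 - F.X (r * k + k) w.1) c : ℤ) : ℝ)| ≤ 2 := by
    intro w hw c
    have hb := dbl_eq F.isLaw.nonneg hw
    have hL : F.L (r * k) w.1 = F.L (r * k) w.2 := (Prod.ext_iff.mp hb).1
    have hT : F.t w.1 = F.t w.2 := t_eq F (Prod.ext_iff.mp (Prod.ext_iff.mp hb).2).1
    rw [Pi.sub_apply, Pi.sub_apply, Xz_eq, Xz_eq, X_eq, X_eq, hL, hT]
    exact Z2.floor_diff _ _ _
  refine ZX.CH_le_round (Z2.dbl_law_is F.isLaw _) _ _ _ ?_
  intro w w' hw hw' _ hY c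
  have h1 := key w hw c
  have h2 := key w' hw' c
  have h3 := congrFun hY c
  rw [h3] at h1
  rw [abs_le] at h1 h2 ⊢
  push_cast at h1 h2 ⊢
  constructor <;> linarith [h1.1, h1.2, h2.1, h2.2]

/-- the conditions at two vertices are equivalent -/
lemma eqv (C : Cub m J n) (k r : ℕ) {w : Finset ℕ} (hw : w ⊆ Finset.range n) :
    Eqv C.F.p (bT (C.ver ∅) k r) (bT (C.ver w) k r) := by
  have key : ∀ ω ω', 0 < C.F.p ω → 0 < C.F.p ω' → C.F.Z ω = C.F.Z ω' →
      (C.S ∅ ω = C.S ∅ ω' ↔ C.S w ω = C.S w ω') := by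
    intro ω ω' h0 h1 hZ
    have e1 := C.cub w hw ω h0
    have e2 := C.cub w hw ω' h1
    have e3 : ∑ i ∈ w, C.h ω i = ∑ i ∈ w, C.h ω' i :=
      Finset.sum_congr rfl fun i hi => C.hz ω ω' hZ i (Finset.mem_range.1 (hw hi))
    constructor
    · intro h; rw [h] at e1; omega
    · intro h; rw [h] at e1; omega
  constructor
  · intro ω ω' h0 h1 h
    have h2 := Prod.ext_iff.mp h
    have h3 := Prod.ext_iff.mp h2.2
    exact Prod.ext h2.1 (Prod.ext ((key ω ω' h0 h1 h3.2).1 h3.1) h3.2)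
  · intro ω ω' h0 h1 h
    have h2 := Prod.ext_iff.mp h
    have h3 := Prod.ext_iff.mp h2.2
    exact Prod.ext h2.1 (Prod.ext ((key ω ω' h0 h1 h3.2).2 h3.1) h3.2)

/-- entropies of functions which agree on the support -/
lemma H_on {Ω S : Type} [Fintype Ω] {p : Ω → ℝ} (hp : ∀ ω, 0 ≤ p ω) {X Y : Ω → S}
    (h : ∀ ω, 0 < p ω → X ω = Y ω) : H p X = H p Y := by
  refine H_congr hp ?_ ?_
  · intro ω ω' h0 h1 e
    rw [h ω h0, h ω' h1, e]
  · intro ω ω' h0 h1 e
    rw [← h ω h0, ← h ω' h1, e]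

lemma exists_of_law {Ω S : Type} [Fintype Ω] {p : Ω → ℝ} (_ : ∀ ω, 0 ≤ p ω) (W : Ω → S) {z : S}
    (h : 0 < law p W z) : ∃ ω, 0 < p ω ∧ W ω = z := by
  classical
  unfold law at h
  obtain ⟨ω, -, hω⟩ := Finset.exists_lt_of_sum_lt
    (f := fun _ => (0 : ℝ)) (g := fun ω => if W ω = z then p ω else 0) (s := univ) (by simpa using h)
  by_cases e : W ω = z
  · exact ⟨ω, by simpa [e] using hω, e⟩
  · simp [e] at hω

lemma cond_pos {Ω S : Type} [Fintype Ω] {p : Ω → ℝ} (hp : ∀ ω, 0 ≤ p ω) (W : Ω → S) {z : S}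
    {ω : Ω} (h : 0 < cond p W z ω) : 0 < p ω ∧ W ω = z := by
  classical
  unfold Pool.Agent.H49.Ent.cond at h
  by_cases e : W ω = z
  · rw [if_pos e] at h
    refine ⟨?_, e⟩
    rcases (hp ω).eq_or_lt with h0 | h0
    · rw [← h0, zero_div] at h; exact absurd h (lt_irrefl _)
    · exact h0
  · rw [if_neg e] at h; exact absurd h (lt_irrefl _)

/-- the edges of the cube are at most `2 ^ J` -/
lemma h_le (C : Cub m J n) {ω : C.F.Ω} (h0 : 0 < C.F.p ω) {i : ℕ} (hi : i < n) :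
    |(C.h ω i : ℝ)| ≤ 2 ^ J := by
  have h1 := C.cub {i} (by simpa using hi) ω h0
  have h2 := C.tim {i} ω
  have h3 := C.tim ∅ ω
  rw [Finset.sum_singleton] at h1
  have h4 : |C.h ω i| ≤ 2 ^ J := by
    rw [abs_le]
    have e2 : ((C.S {i} ω : ℕ) : ℤ) < 2 ^ J := by exact_mod_cast h2
    have e3 : ((C.S ∅ ω : ℕ) : ℤ) < 2 ^ J := by exact_mod_cast h3
    constructor <;> omega
  exact_mod_cast h4

/-- the logarithm of the inverse of an edge is nonnegative -/
lemma log_nn (C : Cub m J n) {ω : C.F.Ω} (h0 : 0 < C.F.p ω) {i : ℕ} (hi : i < n) :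
    0 ≤ Real.log (2 ^ J / max 1 |(C.h ω i : ℝ)|) := by
  refine Real.log_nonneg ?_
  rw [le_div_iff₀ (by positivity), one_mul]
  exact max_le (one_le_pow₀ (by norm_num)) (h_le C h0 hi)

lemma lam_nn (C : Cub m J n) {i : ℕ} (hi : i < n) : 0 ≤ C.lam i := by
  unfold Cub.lam
  refine Finset.sum_nonneg fun ω _ => ?_
  rcases (C.F.isLaw.nonneg ω).eq_or_lt with h0 | h0
  · rw [← h0, zero_mul]
  · exact mul_nonneg h0.le (log_nn C h0 hi)

lemma sum_powset (f : Finset ℕ → ℝ) : ∑ w ∈ (Finset.range n).powerset, f w =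
    ∑ w : Finset (Fin n), f (w.map Fin.valEmbedding) := by
  classical
  symm
  refine Finset.sum_nbij' (fun w => w.map Fin.valEmbedding)
    (fun w => univ.filter fun i : Fin n => (i : ℕ) ∈ w) ?_ ?_ ?_ ?_ ?_
  · intro w _
    rw [Finset.mem_powerset]
    intro x hx
    obtain ⟨i, -, rfl⟩ := Finset.mem_map.1 hx
    simp
  · intro w _; exact Finset.mem_univ _
  · intro w _
    ext i
    simp only [Finset.mem_filter, Finset.mem_univ, true_and, Finset.mem_map,
      Fin.valEmbedding_apply]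
    constructor
    · rintro ⟨j, hj, e⟩
      rwa [← Fin.ext e]
    · intro hi; exact ⟨i, hi, rfl⟩
  · intro w hw
    rw [Finset.mem_powerset] at hw
    ext x
    simp only [Finset.mem_map, Finset.mem_filter, Finset.mem_univ, true_and,
      Fin.valEmbedding_apply]
    constructor
    · rintro ⟨i, hi, rfl⟩; exact hi
    · intro hx; exact ⟨⟨x, Finset.mem_range.1 (hw hx)⟩, hx, rfl⟩
  · intro w _; rfl

/-- the time of a vertex on the event `W0 = z` -/
lemma t_ver (C : Cub m J n) (k r : ℕ) (w : Finset (Fin n)) {ω ω' : C.F.Ω} (h0 : 0 < C.F.p ω)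
    (e : bT (C.ver ∅) k r ω = bT (C.ver ∅) k r ω') :
    (C.ver (w.map Fin.valEmbedding)).t ω =
      (C.ver ∅).t ω' + ∑ i ∈ w, (C.h ω' i : ℝ) / 2 ^ J := by
  have e2 := Prod.ext_iff.mp (Prod.ext_iff.mp e).2
  have hS : C.S ∅ ω = C.S ∅ ω' := e2.1
  have hZ : C.F.Z ω = C.F.Z ω' := e2.2
  have h1 := C.cub (w.map Fin.valEmbedding) (by
    intro x hx
    obtain ⟨i, -, rfl⟩ := Finset.mem_map.1 hx
    simp) ω h0
  rw [Finset.sum_map] at h1
  have h2 : ∑ i ∈ w, C.h ω (Fin.valEmbedding i) = ∑ i ∈ w, C.h ω' i :=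
    Finset.sum_congr rfl fun i _ => C.hz ω ω' hZ i i.2
  rw [h2, hS] at h1
  have h3 : ((C.S (w.map Fin.valEmbedding) ω : ℕ) : ℝ) =
      (C.S ∅ ω' : ℝ) + ∑ i ∈ w, (C.h ω' i : ℝ) := by exact_mod_cast congrArg (Int.cast (R := ℝ)) h1
  change ((C.S (w.map Fin.valEmbedding) ω : ℕ) : ℝ) / 2 ^ J = (C.S ∅ ω' : ℝ) / 2 ^ J + _
  rw [h3, add_div, Finset.sum_div]

/-- the condition at the vertex `w` -/
noncomputable def Bv (C : Cub m J n) (k r : ℕ) (w : Finset ℕ) :
    C.F.Ω → ((Fin m → ℤ) × (Fin m → ℤ)) × (ℕ × C.F.ζ) := bT (C.ver w) k r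

/-- the zoomed position at the vertex `w` -/
noncomputable def Xv (C : Cub m J n) (k r : ℕ) (w : Finset ℕ) : C.F.Ω → Fin m → ℤ :=
  Xz (C.ver w) (r * k) k

end Pool.STE.SX

namespace Pool.STE

open Finset Real
open Pool.Agent.H49.Ent Pool.Agent.H32.Dense Pool.STK Pool.KA SX

theorem sx_thm (hSQ : SQStmt) : SXStmt := by
  intro m n ρ hn hρ
  obtain ⟨C₁, hC, k₁, h⟩ := hSQ m n ρ hn hρ
  have hcc : 0 ≤ cc m := by
    unfold cc
    exact mul_nonneg (Nat.cast_nonneg _) (Real.log_nonneg (by norm_num))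
  have hC2 : 0 ≤ (2 : ℝ) ^ n * (cc m + 2 * C₁ * cc m) := by positivity
  refine ⟨C₁ + 2 ^ n * (cc m + 2 * C₁ * cc m), by positivity, k₁, fun k hk N C r hr => ?_⟩
  classical
  have hN : 1 ≤ N := by omega
  have hpl : IsLaw C.F.p := C.F.isLaw
  obtain ⟨c1, c2, c3⟩ := cds_thm C.F.Ω _ (Fin m → ℤ) C.F.p (Bv C k r ∅) hpl
  have hL0 : ∀ z, 0 ≤ law C.F.p (Bv C k r ∅) z := law_nonneg hpl.nonneg (Bv C k r ∅)
  -- the value of the logarithms
  let g : Fin n → (((Fin m → ℤ) × (Fin m → ℤ)) × (ℕ × C.F.ζ)) → ℝ := fun i z =>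
    if hz : ∃ ω, 0 < C.F.p ω ∧ Bv C k r ∅ ω = z then
      Real.log (2 ^ (N * k) / max 1 |(C.h hz.choose i : ℝ)|) else 0
  have hg : ∀ i ω, 0 < C.F.p ω → g i (Bv C k r ∅ ω) = Real.log (2 ^ (N * k) / max 1 |(C.h ω i : ℝ)|) := by
    intro i ω h0
    have hz : ∃ ω', 0 < C.F.p ω' ∧ Bv C k r ∅ ω' = Bv C k r ∅ ω := ⟨ω, h0, rfl⟩
    have e : C.F.Z hz.choose = C.F.Z ω :=
      (Prod.ext_iff.mp (Prod.ext_iff.mp hz.choose_spec.2).2).2
    show (if hz : ∃ ω', 0 < C.F.p ω' ∧ Bv C k r ∅ ω' = Bv C k r ∅ ω then _ else _) = _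
    rw [dif_pos hz, C.hz _ _ e i i.2]
  have hlam : ∀ i : Fin n, ∑ z ∈ univ.image (Bv C k r ∅), law C.F.p (Bv C k r ∅) z * g i z = C.lam i := by
    intro i
    rw [← sum_mul_eq_sum_image C.F.p (Bv C k r ∅) (g i)]
    unfold Cub.lam
    refine Finset.sum_congr rfl fun ω _ => ?_
    rcases (hpl.nonneg ω).eq_or_lt with h0 | h0
    · rw [← h0, zero_mul, zero_mul]
    · rw [hg i ω h0]
  -- one value of the condition
  have key : ∀ z ∈ univ.image (Bv C k r ∅), law C.F.p (Bv C k r ∅) z *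
      (KQ n * H (cond C.F.p (Bv C k r ∅) z) (Fl (zo (r * k) C.F.d) k)) ≤ law C.F.p (Bv C k r ∅) z *
      ((∑ w : Finset (Fin n), (H (cond C.F.p (Bv C k r ∅) z) (Xv C k r (w.map Fin.valEmbedding)) +
        C₁ * (H (pr2 (cond C.F.p (Bv C k r ∅) z) (cond C.F.p (Bv C k r ∅) z))
          (fun v => Xv C k r (w.map Fin.valEmbedding) v.2 -
            Xv C k r (w.map Fin.valEmbedding) v.1) -
          H (cond C.F.p (Bv C k r ∅) z) (Xv C k r (w.map Fin.valEmbedding))))) +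
      C₁ * ∑ i, g i z + ρ * k) := by
    intro z _
    rcases (hL0 z).eq_or_lt with h0 | h0
    · rw [← h0, zero_mul, zero_mul]
    · refine mul_le_mul_of_nonneg_left ?_ h0.le
      obtain ⟨ω', h1, rfl⟩ := exists_of_law hpl.nonneg (Bv C k r ∅) h0
      have hq := c1 _ h0
      have hT0 : 0 ≤ (C.ver ∅).t ω' := by unfold Fam.t; positivity
      have hT1 : (C.ver ∅).t ω' ≤ 1 := by
        unfold Fam.t
        rw [div_le_one (by positivity)]
        have := (C.ver ∅).tim ω'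
        exact_mod_cast this.le
      have h3 := h k hk C.F.Ω (cond C.F.p (Bv C k r ∅) (Bv C k r ∅ ω')) (zo (r * k) C.F.u) (zo (r * k) C.F.d) hq
        (fun ω i => ⟨Int.fract_nonneg _, Int.fract_lt_one _⟩)
        (fun ω i => ⟨Int.fract_nonneg _, Int.fract_lt_one _⟩) ((C.ver ∅).t ω')
        (fun i => (C.h ω' i : ℝ) / 2 ^ (N * k)) (fun i => g i (Bv C k r ∅ ω')) hT0 hT1
        (fun i => by
          rw [abs_div, abs_of_pos (by positivity : (0 : ℝ) < 2 ^ (N * k)),
            div_le_one (by positivity)]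
          exact h_le C h1 i.2)
        (fun i => by
          show 0 ≤ g i (Bv C k r ∅ ω')
          rw [hg i ω' h1]; exact log_nn C h1 i.2)
        (fun i hi => by
          show _ ≤ g i (Bv C k r ∅ ω')
          rw [hg i ω' h1]
          have e : (C.h ω' i : ℝ) = 0 := by
            rcases div_eq_zero_iff.1 hi with e | e
            · exact e
            · exact absurd e (by positivity)
          rw [e, abs_zero, max_eq_left zero_le_one, div_one, Real.log_pow]
          refine mul_le_mul_of_nonneg_right ?_ (Real.log_nonneg (by norm_num))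
          exact_mod_cast Nat.le_mul_of_pos_left k hN)
        (fun i hi => by
          show _ ≤ g i (Bv C k r ∅ ω')
          rw [hg i ω' h1]
          have e : (C.h ω' i : ℝ) ≠ 0 := fun e => hi (by simp [e])
          have e1 : C.h ω' i ≠ 0 := by exact_mod_cast e
          have e2 : 1 ≤ |C.h ω' i| := Int.one_le_abs e1
          have e3 : (1 : ℝ) ≤ |(C.h ω' i : ℝ)| := by exact_mod_cast e2
          rw [max_eq_right e3, abs_div, abs_of_pos (by positivity : (0 : ℝ) < 2 ^ (N * k)),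
            one_div_div])
      have hx : ∀ (w : Finset (Fin n)) (ω : C.F.Ω), 0 < cond C.F.p (Bv C k r ∅) (Bv C k r ∅ ω') ω →
          Xp (zo (r * k) C.F.u) (zo (r * k) C.F.d)
            ((C.ver ∅).t ω' + ∑ i ∈ w, (C.h ω' i : ℝ) / 2 ^ (N * k)) k ω =
          Xv C k r (w.map Fin.valEmbedding) ω := by
        intro w ω hω
        obtain ⟨h4, h5⟩ := cond_pos hpl.nonneg (Bv C k r ∅) hω
        have h6 := t_ver C k r w h4 h5
        unfold Xv Xz
        rw [h6]
        rfl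
      have e1 : ∀ w : Finset (Fin n), H (cond C.F.p (Bv C k r ∅) (Bv C k r ∅ ω')) (Xp (zo (r * k) C.F.u)
          (zo (r * k) C.F.d) ((C.ver ∅).t ω' + ∑ i ∈ w, (C.h ω' i : ℝ) / 2 ^ (N * k)) k) =
          H (cond C.F.p (Bv C k r ∅) (Bv C k r ∅ ω')) (Xv C k r (w.map Fin.valEmbedding)) := fun w =>
        H_on hq.nonneg (hx w)
      have e2 : ∀ w : Finset (Fin n), H (pr2 (cond C.F.p (Bv C k r ∅) (Bv C k r ∅ ω')) (cond C.F.p (Bv C k r ∅) (Bv C k r ∅ ω')))
          (fun v => Xp (zo (r * k) C.F.u) (zo (r * k) C.F.d)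
            ((C.ver ∅).t ω' + ∑ i ∈ w, (C.h ω' i : ℝ) / 2 ^ (N * k)) k v.2 -
            Xp (zo (r * k) C.F.u) (zo (r * k) C.F.d)
            ((C.ver ∅).t ω' + ∑ i ∈ w, (C.h ω' i : ℝ) / 2 ^ (N * k)) k v.1) =
          H (pr2 (cond C.F.p (Bv C k r ∅) (Bv C k r ∅ ω')) (cond C.F.p (Bv C k r ∅) (Bv C k r ∅ ω')))
          (fun v => Xv C k r (w.map Fin.valEmbedding) v.2 -
            Xv C k r (w.map Fin.valEmbedding) v.1) := by
        intro w
        refine H_on (fun v => mul_nonneg (hq.nonneg _) (hq.nonneg _)) fun v hv => ?_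
        have hv1 : 0 < cond C.F.p (Bv C k r ∅) (Bv C k r ∅ ω') v.1 := by
          rcases (hq.nonneg v.1).eq_or_lt with e | e
          · rw [← e, zero_mul] at hv; exact absurd hv (lt_irrefl _)
          · exact e
        have hv2 : 0 < cond C.F.p (Bv C k r ∅) (Bv C k r ∅ ω') v.2 := by
          rcases (hq.nonneg v.2).eq_or_lt with e | e
          · rw [← e, mul_zero] at hv; exact absurd hv (lt_irrefl _)
          · exact e
        rw [hx w v.1 hv1, hx w v.2 hv2]
      simp only [e1, e2] at h3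
      exact h3
  have hsum := Finset.sum_le_sum key
  -- the left hand side
  have hl : ∑ z ∈ univ.image (Bv C k r ∅), law C.F.p (Bv C k r ∅) z *
      (KQ n * H (cond C.F.p (Bv C k r ∅) z) (Fl (zo (r * k) C.F.d) k)) =
      KQ n * CH C.F.p (C.F.D ((r + 1) * k)) (Bv C k r ∅) := by
    have e1 := c2 (Fl (zo (r * k) C.F.d) k)
    have e2 := zd_thm m C.F.Ω (ℕ × C.F.ζ) C.F.p C.F.u C.F.d (C.ver ∅).W hpl (r * k) k
    have e3 : (r + 1) * k = r * k + k := by ring
    have e4 : CH C.F.p (Fl (zo (r * k) C.F.d) k) (Bv C k r ∅) = CH C.F.p (C.F.D (r * k + k)) (Bv C k r ∅) := e2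
    rw [e3, ← e4, e1, Finset.mul_sum]
    exact Finset.sum_congr rfl fun z _ => by ring
  -- the positions
  have hx1 : ∀ w : Finset (Fin n), ∑ z ∈ univ.image (Bv C k r ∅), law C.F.p (Bv C k r ∅) z *
      H (cond C.F.p (Bv C k r ∅) z) (Xv C k r (w.map Fin.valEmbedding)) =
      CH C.F.p (Xv C k r (w.map Fin.valEmbedding))
        (Bv C k r (w.map Fin.valEmbedding)) := by
    intro w
    have hw : w.map Fin.valEmbedding ⊆ Finset.range n := by
      intro x hx
      obtain ⟨i, -, rfl⟩ := Finset.mem_map.1 hx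
      simp
    rw [← c2]
    exact CH_eqv hpl.nonneg _ (eqv C k r hw)
  have hx2 : ∀ w : Finset (Fin n), ∑ z ∈ univ.image (Bv C k r ∅), law C.F.p (Bv C k r ∅) z *
      H (pr2 (cond C.F.p (Bv C k r ∅) z) (cond C.F.p (Bv C k r ∅) z))
          (fun v => Xv C k r (w.map Fin.valEmbedding) v.2 -
            Xv C k r (w.map Fin.valEmbedding) v.1) =
      CH (dbl C.F.p (Bv C k r (w.map Fin.valEmbedding)))
        (fun v => Xv C k r (w.map Fin.valEmbedding) v.2 -
            Xv C k r (w.map Fin.valEmbedding) v.1)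
        (fun v => Bv C k r (w.map Fin.valEmbedding) v.1) := by
    intro w
    have hw : w.map Fin.valEmbedding ⊆ Finset.range n := by
      intro x hx
      obtain ⟨i, -, rfl⟩ := Finset.mem_map.1 hx
      simp
    have e0 : Eqv C.F.p (Bv C k r ∅) (Bv C k r (w.map Fin.valEmbedding)) := eqv C k r hw
    rw [← c3, ← dbl_eqv hpl.nonneg e0]
    refine CH_eqv (dbl_nonneg hpl.nonneg) _ ⟨?_, ?_⟩
    · intro v v' h0 h1 e
      exact e0.1 _ _ (dbl_pos hpl.nonneg h0).1 (dbl_pos hpl.nonneg h1).1 e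
    · intro v v' h0 h1 e
      exact e0.2 _ _ (dbl_pos hpl.nonneg h0).1 (dbl_pos hpl.nonneg h1).1 e
  have hone : ∑ z ∈ univ.image (Bv C k r ∅), law C.F.p (Bv C k r ∅) z = 1 := by rw [sum_law, hpl.sum_one]
  -- the right hand side
  have hrs : ∑ z ∈ univ.image (Bv C k r ∅), law C.F.p (Bv C k r ∅) z *
      ((∑ w : Finset (Fin n), (H (cond C.F.p (Bv C k r ∅) z) (Xv C k r (w.map Fin.valEmbedding)) +
        C₁ * (H (pr2 (cond C.F.p (Bv C k r ∅) z) (cond C.F.p (Bv C k r ∅) z))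
          (fun v => Xv C k r (w.map Fin.valEmbedding) v.2 -
            Xv C k r (w.map Fin.valEmbedding) v.1) -
          H (cond C.F.p (Bv C k r ∅) z) (Xv C k r (w.map Fin.valEmbedding))))) +
      C₁ * ∑ i, g i z + ρ * k) =
      ∑ w : Finset (Fin n), (CH C.F.p (Xv C k r (w.map Fin.valEmbedding))
        (Bv C k r (w.map Fin.valEmbedding)) + C₁ *
        (CH (dbl C.F.p (Bv C k r (w.map Fin.valEmbedding)))
        (fun v => Xv C k r (w.map Fin.valEmbedding) v.2 -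
            Xv C k r (w.map Fin.valEmbedding) v.1)
        (fun v => Bv C k r (w.map Fin.valEmbedding) v.1) -
        CH C.F.p (Xv C k r (w.map Fin.valEmbedding))
        (Bv C k r (w.map Fin.valEmbedding)))) + C₁ * ∑ i : Fin n, C.lam i + ρ * k := by
    have f1 : ∀ z, law C.F.p (Bv C k r ∅) z *
      ((∑ w : Finset (Fin n), (H (cond C.F.p (Bv C k r ∅) z) (Xv C k r (w.map Fin.valEmbedding)) +
        C₁ * (H (pr2 (cond C.F.p (Bv C k r ∅) z) (cond C.F.p (Bv C k r ∅) z))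
          (fun v => Xv C k r (w.map Fin.valEmbedding) v.2 -
            Xv C k r (w.map Fin.valEmbedding) v.1) -
          H (cond C.F.p (Bv C k r ∅) z) (Xv C k r (w.map Fin.valEmbedding))))) +
      C₁ * ∑ i, g i z + ρ * k) =
      (∑ w : Finset (Fin n), (law C.F.p (Bv C k r ∅) z * H (cond C.F.p (Bv C k r ∅) z)
          (Xv C k r (w.map Fin.valEmbedding)) +
        C₁ * (law C.F.p (Bv C k r ∅) z * H (pr2 (cond C.F.p (Bv C k r ∅) z) (cond C.F.p (Bv C k r ∅) z))
          (fun v => Xv C k r (w.map Fin.valEmbedding) v.2 -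
            Xv C k r (w.map Fin.valEmbedding) v.1) -
          law C.F.p (Bv C k r ∅) z * H (cond C.F.p (Bv C k r ∅) z) (Xv C k r (w.map Fin.valEmbedding))))) +
      C₁ * (∑ i, law C.F.p (Bv C k r ∅) z * g i z) + law C.F.p (Bv C k r ∅) z * (ρ * k) := by
      intro z
      have a2 : C₁ * ∑ i, law C.F.p (Bv C k r ∅) z * g i z =
          law C.F.p (Bv C k r ∅) z * (C₁ * ∑ i, g i z) := by
        rw [← Finset.mul_sum]; ring
      rw [a2, mul_add, mul_add, Finset.mul_sum]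
      congr 2
      exact Finset.sum_congr rfl fun w _ => by ring
    rw [Finset.sum_congr rfl fun z _ => f1 z, Finset.sum_add_distrib, Finset.sum_add_distrib,
      ← Finset.sum_mul, hone, one_mul, ← Finset.mul_sum, Finset.sum_comm]
    congr 2
    · refine Finset.sum_congr rfl fun w _ => ?_
      rw [Finset.sum_add_distrib, ← Finset.mul_sum, Finset.sum_sub_distrib, hx1, hx2]
    · rw [Finset.sum_comm]
      congr 1
      exact Finset.sum_congr rfl fun i _ => hlam i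
  rw [hl, hrs] at hsum
  -- the rounding
  have h3 : (r + 1) * k = r * k + k := by ring
  have hfin : ∀ w : Finset (Fin n), (CH C.F.p (Xv C k r (w.map Fin.valEmbedding))
        (Bv C k r (w.map Fin.valEmbedding)) + C₁ *
        (CH (dbl C.F.p (Bv C k r (w.map Fin.valEmbedding)))
        (fun v => Xv C k r (w.map Fin.valEmbedding) v.2 -
            Xv C k r (w.map Fin.valEmbedding) v.1)
        (fun v => Bv C k r (w.map Fin.valEmbedding) v.1) -
        CH C.F.p (Xv C k r (w.map Fin.valEmbedding))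
        (Bv C k r (w.map Fin.valEmbedding)))) ≤
      (CH C.F.p ((C.ver (w.map Fin.valEmbedding)).X ((r + 1) * k))
        (Bv C k r (w.map Fin.valEmbedding)) +
        (C₁ + 2 ^ n * (cc m + 2 * C₁ * cc m)) * hT (C.ver (w.map Fin.valEmbedding)) k r) +
      (cc m + 2 * C₁ * cc m) := by
    intro w
    have g1 := zoom_le (C.ver (w.map Fin.valEmbedding)) k r
    have g2 := zoom_ge (C.ver (w.map Fin.valEmbedding)) k r
    have g3 := zoom_dbl (C.ver (w.map Fin.valEmbedding)) k r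
    have g4 : 0 ≤ hT (C.ver (w.map Fin.valEmbedding)) k r := by
      unfold hT
      exact sub_nonneg.2 (dbl_nn (C.ver (w.map Fin.valEmbedding)).isLaw.nonneg _ _)
    have g5 := mul_nonneg hC2 g4
    have g6 : hT (C.ver (w.map Fin.valEmbedding)) k r =
        CH (dbl C.F.p (Bv C k r (w.map Fin.valEmbedding)))
          (fun v => (C.ver (w.map Fin.valEmbedding)).X (r * k + k) v.2 -
            (C.ver (w.map Fin.valEmbedding)).X (r * k + k) v.1)
          (fun v => Bv C k r (w.map Fin.valEmbedding) v.1) -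
        CH C.F.p ((C.ver (w.map Fin.valEmbedding)).X (r * k + k))
          (Bv C k r (w.map Fin.valEmbedding)) := by
      unfold hT
      rw [h3]
      rfl
    have g7 : (CH (dbl C.F.p (Bv C k r (w.map Fin.valEmbedding)))
        (fun v => Xv C k r (w.map Fin.valEmbedding) v.2 -
            Xv C k r (w.map Fin.valEmbedding) v.1)
        (fun v => Bv C k r (w.map Fin.valEmbedding) v.1) -
        CH C.F.p (Xv C k r (w.map Fin.valEmbedding))
        (Bv C k r (w.map Fin.valEmbedding))) ≤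
        hT (C.ver (w.map Fin.valEmbedding)) k r + 2 * cc m := by
      rw [g6]
      have g2' : CH C.F.p ((C.ver (w.map Fin.valEmbedding)).X (r * k + k))
        (Bv C k r (w.map Fin.valEmbedding)) ≤
        CH C.F.p (Xv C k r (w.map Fin.valEmbedding))
        (Bv C k r (w.map Fin.valEmbedding)) + cc m := g2
      have g3' : CH (dbl C.F.p (Bv C k r (w.map Fin.valEmbedding)))
        (fun v => Xv C k r (w.map Fin.valEmbedding) v.2 -
            Xv C k r (w.map Fin.valEmbedding) v.1)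
        (fun v => Bv C k r (w.map Fin.valEmbedding) v.1) ≤
        CH (dbl C.F.p (Bv C k r (w.map Fin.valEmbedding)))
          (fun v => (C.ver (w.map Fin.valEmbedding)).X (r * k + k) v.2 -
            (C.ver (w.map Fin.valEmbedding)).X (r * k + k) v.1)
          (fun v => Bv C k r (w.map Fin.valEmbedding) v.1) + cc m := g3
      linarith
    have g8 := mul_le_mul_of_nonneg_left g7 hC
    have g1' : CH C.F.p (Xv C k r (w.map Fin.valEmbedding))
        (Bv C k r (w.map Fin.valEmbedding)) ≤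
        CH C.F.p ((C.ver (w.map Fin.valEmbedding)).X ((r + 1) * k))
        (Bv C k r (w.map Fin.valEmbedding)) + cc m := by rw [h3]; exact g1
    have e5 : (C₁ + 2 ^ n * (cc m + 2 * C₁ * cc m)) * hT (C.ver (w.map Fin.valEmbedding)) k r =
      C₁ * hT (C.ver (w.map Fin.valEmbedding)) k r +
      2 ^ n * (cc m + 2 * C₁ * cc m) * hT (C.ver (w.map Fin.valEmbedding)) k r := by ring
    rw [e5]
    linarith
  have hA := Finset.sum_le_sum fun (w : Finset (Fin n)) (_ : w ∈ univ) => hfin w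
  rw [Finset.sum_add_distrib (f := fun w : Finset (Fin n) =>
      (CH C.F.p ((C.ver (w.map Fin.valEmbedding)).X ((r + 1) * k))
        (Bv C k r (w.map Fin.valEmbedding)) +
        (C₁ + 2 ^ n * (cc m + 2 * C₁ * cc m)) * hT (C.ver (w.map Fin.valEmbedding)) k r)),
    Finset.sum_const, Finset.card_univ, Fintype.card_finset, Fintype.card_fin,
    nsmul_eq_mul] at hA
  have hB : ∑ i ∈ Finset.range n, C.lam i = ∑ i : Fin n, C.lam i :=
    (Fin.sum_univ_eq_sum_range (fun i => C.lam i) n).symm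
  have hB0 : 0 ≤ ∑ i : Fin n, C.lam i := Finset.sum_nonneg fun i _ => lam_nn C i.2
  have hB1 := mul_nonneg hC2 hB0
  rw [sum_powset, hB]
  push_cast at hA
  have e6 : (C₁ + 2 ^ n * (cc m + 2 * C₁ * cc m)) * ∑ i : Fin n, C.lam i =
      C₁ * ∑ i : Fin n, C.lam i + 2 ^ n * (cc m + 2 * C₁ * cc m) * ∑ i : Fin n, C.lam i := by ring
  rw [e6]
  change KQ n * CH C.F.p (C.F.D ((r + 1) * k)) (Bv C k r ∅) ≤ ∑ w : Finset (Fin n),
    (CH C.F.p ((C.ver (w.map Fin.valEmbedding)).X ((r + 1) * k))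
      (Bv C k r (w.map Fin.valEmbedding)) +
      (C₁ + 2 ^ n * (cc m + 2 * C₁ * cc m)) * hT (C.ver (w.map Fin.valEmbedding)) k r) +
      (C₁ * ∑ i : Fin n, C.lam i + 2 ^ n * (cc m + 2 * C₁ * cc m) * ∑ i : Fin n, C.lam i) +
      ρ * k + (C₁ + 2 ^ n * (cc m + 2 * C₁ * cc m))
  linarith

end Pool.STE
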