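import Mathlib

/-!
# The inclusion matrices of the Boolean lattice have full rank
-/

set_option autoImplicit false

namespace Pool.H27.STE

open Finset

variable {n : ℕ}

/-- level `j` of the lattice of subsets of `Fin n` -/
abbrev Lv (n j : ℕ) := {S : Finset (Fin n) // S.card = j}

/-- sum over the sets above -/
noncomputable def dn (n j : ℕ) : (Lv n (j + 1) → ℝ) →ₗ[ℝ] (Lv n j → ℝ) where
  toFun Y S := ∑ S' : Lv n (j + 1), if S.1 ⊆ S'.1 then Y S' else 0
  map_add' Y Y' := by
    funext S
    simp only [Pi.add_apply, ← Finset.sum_add_distrib]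
    exact Finset.sum_congr rfl fun S' _ => by split_ifs <;> simp
  map_smul' c Y := by
    funext S
    simp only [Pi.smul_apply, smul_eq_mul, RingHom.id_apply, Finset.mul_sum]
    exact Finset.sum_congr rfl fun S' _ => by split_ifs <;> simp

/-- sum over the sets below -/
noncomputable def up (n j : ℕ) : (Lv n j → ℝ) →ₗ[ℝ] (Lv n (j + 1) → ℝ) where
  toFun Y S' := ∑ S : Lv n j, if S.1 ⊆ S'.1 then Y S else 0
  map_add' Y Y' := by
    funext S
    simp only [Pi.add_apply, ← Finset.sum_add_distrib]
    exact Finset.sum_congr rfl fun S' _ => by split_ifs <;> simp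
  map_smul' c Y := by
    funext S
    simp only [Pi.smul_apply, smul_eq_mul, RingHom.id_apply, Finset.mul_sum]
    exact Finset.sum_congr rfl fun S' _ => by split_ifs <;> simp

theorem dn_apply (j : ℕ) (Y : Lv n (j + 1) → ℝ) (S : Lv n j) :
    dn n j Y S = ∑ S' : Lv n (j + 1), if S.1 ⊆ S'.1 then Y S' else 0 := rfl

theorem up_apply (j : ℕ) (Y : Lv n j → ℝ) (S' : Lv n (j + 1)) :
    up n j Y S' = ∑ S : Lv n j, if S.1 ⊆ S'.1 then Y S else 0 := rfl

/-- number of common upper neighbours minus number of common lower neighbours -/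
theorem count (j : ℕ) (S T : Lv n (j + 1)) :
    (((univ.filter fun R : Lv n (j + 2) => S.1 ⊆ R.1 ∧ T.1 ⊆ R.1).card : ℝ)) -
      ((univ.filter fun R : Lv n j => R.1 ⊆ S.1 ∧ R.1 ⊆ T.1).card : ℝ) =
      if S = T then (n : ℝ) - 2 * (j + 1) else 0 := by
  classical
  have hup : (univ.filter fun R : Lv n (j + 2) => S.1 ⊆ R.1 ∧ T.1 ⊆ R.1).card =
      ((powersetCard (j + 2) (univ : Finset (Fin n))).filter fun R => S.1 ∪ T.1 ⊆ R).card := by
    refine Finset.card_bij (fun R _ => R.1) ?_ ?_ ?_
    · intro R hR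
      simp only [mem_filter, mem_univ, true_and, mem_powersetCard, subset_univ] at hR ⊢
      exact ⟨R.2, union_subset hR.1 hR.2⟩
    · intro R _ R' _ h
      exact Subtype.ext h
    · intro R hR
      simp only [mem_filter, mem_powersetCard, subset_univ, true_and] at hR
      exact ⟨⟨R, hR.1⟩, by simp [union_subset_iff.1 hR.2], rfl⟩
  have hdn : (univ.filter fun R : Lv n j => R.1 ⊆ S.1 ∧ R.1 ⊆ T.1).card =
      (powersetCard j (S.1 ∩ T.1)).card := by
    refine Finset.card_bij (fun R _ => R.1) ?_ ?_ ?_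
    · intro R hR
      simp only [mem_filter, mem_univ, true_and, mem_powersetCard] at hR ⊢
      exact ⟨subset_inter hR.1 hR.2, R.2⟩
    · intro R _ R' _ h
      exact Subtype.ext h
    · intro R hR
      simp only [mem_powersetCard] at hR
      exact ⟨⟨R, hR.2⟩, by simp [subset_inter_iff.1 hR.1], rfl⟩
  have hST : (S.1 ∪ T.1).card + (S.1 ∩ T.1).card = (j + 1) + (j + 1) := by
    rw [card_union_add_card_inter, S.2, T.2]
  rw [hup, hdn, card_powersetCard]
  by_cases h : S = T
  · subst h
    rw [if_pos rfl]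
    have h1 : ((powersetCard (j + 2) (univ : Finset (Fin n))).filter
        fun R => S.1 ∪ S.1 ⊆ R).card = n - (j + 1) := by
      have : ((powersetCard (j + 2) (univ : Finset (Fin n))).filter fun R => S.1 ∪ S.1 ⊆ R) =
          (S.1ᶜ).image fun i => insert i S.1 := by
        ext R
        simp only [union_idempotent, mem_filter, mem_powersetCard, subset_univ, true_and,
          mem_image, mem_compl]
        constructor
        · rintro ⟨hc, hs⟩
          have h2 : (R \ S.1).card = 1 := by
            rw [card_sdiff_of_subset hs, hc, S.2]; omega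
          obtain ⟨i, hi⟩ := card_eq_one.1 h2
          refine ⟨i, ?_, ?_⟩
          · have : i ∈ R \ S.1 := by rw [hi]; simp
            exact (mem_sdiff.1 this).2
          · rw [insert_eq, ← hi, sdiff_union_of_subset hs]
        · rintro ⟨i, hi, rfl⟩
          exact ⟨by rw [card_insert_of_notMem hi, S.2], subset_insert _ _⟩
      rw [this, card_image_of_injOn, card_compl, Fintype.card_fin, S.2]
      intro a ha b _ hab
      have ha' : a ∉ S.1 := mem_compl.1 (mem_coe.1 ha)
      have : a ∈ insert b S.1 := by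
        have := mem_insert_self a S.1
        simp only at hab
        rwa [hab] at this
      rcases mem_insert.1 this with h3 | h3
      · exact h3
      · exact absurd h3 ha'
    have hle : j + 1 ≤ n := by
      have := card_le_univ S.1
      rwa [Fintype.card_fin, S.2] at this
    rw [h1, inter_self, S.2, Nat.choose_succ_self_right, Nat.cast_sub hle]
    push_cast; ring
  · rw [if_neg h]
    have hne : S.1 ≠ T.1 := fun e => h (Subtype.ext e)
    have hlt : (S.1 ∩ T.1).card ≤ j := by
      by_contra hc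
      have h1 : (S.1 ∩ T.1).card = j + 1 := by
        have h2 : (S.1 ∩ T.1).card ≤ S.1.card := card_le_card inter_subset_left
        rw [S.2] at h2; omega
      have h3 : S.1 ∩ T.1 = S.1 := eq_of_subset_of_card_le inter_subset_left (by rw [h1, S.2])
      have h4 : S.1 ∩ T.1 = T.1 := eq_of_subset_of_card_le inter_subset_right (by rw [h1, T.2])
      exact hne (h3.symm.trans h4)
    rcases Nat.lt_or_ge (S.1 ∩ T.1).card j with hl | hg
    · have h1 : ((powersetCard (j + 2) (univ : Finset (Fin n))).filter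
          fun R => S.1 ∪ T.1 ⊆ R).card = 0 := by
        rw [card_eq_zero, filter_eq_empty_iff]
        intro R hR hs
        have := card_le_card hs
        rw [(mem_powersetCard.1 hR).2] at this
        omega
      rw [h1, Nat.choose_eq_zero_of_lt hl]; simp
    · have he : (S.1 ∩ T.1).card = j := le_antisymm hlt hg
      have hu : (S.1 ∪ T.1).card = j + 2 := by omega
      have h1 : ((powersetCard (j + 2) (univ : Finset (Fin n))).filter
          fun R => S.1 ∪ T.1 ⊆ R).card = 1 := by
        rw [card_eq_one]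
        refine ⟨S.1 ∪ T.1, ?_⟩
        ext R
        simp only [mem_filter, mem_powersetCard, subset_univ, true_and, mem_singleton]
        constructor
        · rintro ⟨hc, hs⟩
          exact (eq_of_subset_of_card_le hs (by rw [hc, hu])).symm
        · rintro rfl
          exact ⟨hu, Subset.rfl⟩
      rw [h1, he, Nat.choose_self]; simp

theorem sq_up (j : ℕ) (Y : Lv n (j + 1) → ℝ) :
    ∑ R, (up n (j + 1) Y R) ^ 2 = ∑ S, ∑ T, Y S * Y T *
      ((univ.filter fun R : Lv n (j + 2) => S.1 ⊆ R.1 ∧ T.1 ⊆ R.1).card : ℝ) := by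
  classical
  have h1 : ∀ R : Lv n (j + 2), (up n (j + 1) Y R) ^ 2 =
      ∑ S : Lv n (j + 1), ∑ T : Lv n (j + 1),
        Y S * Y T * (if S.1 ⊆ R.1 ∧ T.1 ⊆ R.1 then 1 else 0) := by
    intro R
    rw [sq, up_apply, Finset.sum_mul_sum]
    refine sum_congr rfl fun S _ => sum_congr rfl fun T _ => ?_
    by_cases hS : S.1 ⊆ R.1 <;> by_cases hT : T.1 ⊆ R.1 <;> simp [hS, hT]
  simp_rw [h1]
  rw [sum_comm]
  refine sum_congr rfl fun S _ => ?_
  rw [sum_comm]
  refine sum_congr rfl fun T _ => ?_
  rw [← mul_sum, Finset.card_filter]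
  push_cast
  rfl

theorem sq_dn (j : ℕ) (Y : Lv n (j + 1) → ℝ) :
    ∑ R, (dn n j Y R) ^ 2 = ∑ S, ∑ T, Y S * Y T *
      ((univ.filter fun R : Lv n j => R.1 ⊆ S.1 ∧ R.1 ⊆ T.1).card : ℝ) := by
  classical
  have h1 : ∀ R : Lv n j, (dn n j Y R) ^ 2 =
      ∑ S : Lv n (j + 1), ∑ T : Lv n (j + 1),
        Y S * Y T * (if R.1 ⊆ S.1 ∧ R.1 ⊆ T.1 then 1 else 0) := by
    intro R
    rw [sq, dn_apply, Finset.sum_mul_sum]
    refine sum_congr rfl fun S _ => sum_congr rfl fun T _ => ?_
    by_cases hS : R.1 ⊆ S.1 <;> by_cases hT : R.1 ⊆ T.1 <;> simp [hS, hT]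
  simp_rw [h1]
  rw [sum_comm]
  refine sum_congr rfl fun S _ => ?_
  rw [sum_comm]
  refine sum_congr rfl fun T _ => ?_
  rw [← mul_sum, Finset.card_filter]
  push_cast
  rfl

/-- the commutation relation of the operators, as an identity of quadratic forms -/
theorem sq_sub (j : ℕ) (Y : Lv n (j + 1) → ℝ) :
    ∑ R, (up n (j + 1) Y R) ^ 2 - ∑ R, (dn n j Y R) ^ 2 =
      ((n : ℝ) - 2 * (j + 1)) * ∑ S, Y S ^ 2 := by
  classical
  rw [sq_up, sq_dn, ← Finset.sum_sub_distrib, mul_sum]
  refine sum_congr rfl fun S _ => ?_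
  rw [← Finset.sum_sub_distrib]
  simp_rw [← mul_sub, count]
  rw [Finset.sum_eq_single S]
  · rw [if_pos rfl]; ring
  · intro T _ hT
    rw [if_neg (Ne.symm hT), mul_zero]
  · intro h; exact absurd (mem_univ _) h

/-- above the middle, `dn` is injective -/
theorem dn_inj (j : ℕ) (h : n < 2 * (j + 1)) : Function.Injective (dn n j) := by
  rw [injective_iff_map_eq_zero]
  intro Y hY
  have h1 := sq_sub j Y
  rw [hY] at h1
  have h2 : 0 ≤ ∑ R, (up n (j + 1) Y R) ^ 2 := sum_nonneg fun _ _ => sq_nonneg _
  have h3 : 0 ≤ ∑ S, Y S ^ 2 := sum_nonneg fun _ _ => sq_nonneg _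
  have h4 : ((n : ℝ) - 2 * (j + 1)) ≤ -1 := by
    have : (n : ℝ) + 1 ≤ 2 * ((j : ℝ) + 1) := by exact_mod_cast h
    linarith
  have h5 : ∑ S, Y S ^ 2 = 0 := by
    simp only [Pi.zero_apply, ne_eq, OfNat.ofNat_ne_zero, not_false_eq_true, zero_pow,
      sum_const_zero, sub_zero] at h1
    nlinarith
  funext S
  have h6 := (sum_eq_zero_iff_of_nonneg (fun S _ => sq_nonneg (Y S))).1 h5 S (mem_univ _)
  exact pow_eq_zero_iff (two_ne_zero) |>.1 h6

/-- below the middle, `up` is injective -/
theorem up_inj (j : ℕ) (h : 2 * j < n) : Function.Injective (up n j) := by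
  classical
  rw [injective_iff_map_eq_zero]
  intro Y hY
  cases j with
  | zero =>
    funext S
    have hn : 0 < n := by omega
    have hS : S.1 = ∅ := card_eq_zero.1 S.2
    have h1 := congrFun hY ⟨{⟨0, hn⟩}, card_singleton _⟩
    rw [up_apply, Finset.sum_eq_single S] at h1
    · simpa [hS] using h1
    · intro T _ hT
      exact absurd (Subtype.ext ((card_eq_zero.1 T.2).trans hS.symm)) hT
    · intro h; exact absurd (mem_univ _) h
  | succ j =>
    have h1 := sq_sub j Y
    rw [hY] at h1
    have h2 : 0 ≤ ∑ R, (dn n j Y R) ^ 2 := sum_nonneg fun _ _ => sq_nonneg _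
    have h3 : 0 ≤ ∑ S, Y S ^ 2 := sum_nonneg fun _ _ => sq_nonneg _
    have h4 : 1 ≤ ((n : ℝ) - 2 * (j + 1)) := by
      have : 2 * ((j : ℝ) + 1) + 1 ≤ n := by exact_mod_cast h
      linarith
    have h5 : ∑ S, Y S ^ 2 = 0 := by
      simp only [Pi.zero_apply, ne_eq, OfNat.ofNat_ne_zero, not_false_eq_true, zero_pow,
        sum_const_zero, zero_sub] at h1
      nlinarith
    funext S
    have h6 := (sum_eq_zero_iff_of_nonneg (fun S _ => sq_nonneg (Y S))).1 h5 S (mem_univ _)
    exact pow_eq_zero_iff (two_ne_zero) |>.1 h6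

/-- `up` and `dn` are adjoint -/
theorem adj (j : ℕ) (Y : Lv n (j + 1) → ℝ) (W : Lv n j → ℝ) :
    ∑ S, dn n j Y S * W S = ∑ S', Y S' * up n j W S' := by
  simp_rw [dn_apply, up_apply, sum_mul, mul_sum]
  rw [sum_comm]
  refine sum_congr rfl fun S' _ => sum_congr rfl fun S _ => ?_
  split_ifs <;> ring

/-- below the middle, `dn` is surjective -/
theorem dn_surj (j : ℕ) (h : 2 * j < n) : Function.Surjective (dn n j) := by
  classical
  -- the composition with `up` is injective, hence surjective
  have h1 : Function.Injective ((dn n j).comp (up n j)) := by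
    rw [injective_iff_map_eq_zero]
    intro W hW
    have h2 := adj j (up n j W) W
    have h3 : ∑ S, dn n j (up n j W) S * W S = 0 := by
      have : dn n j (up n j W) = 0 := hW
      rw [this]; simp
    rw [h3] at h2
    have h4 : up n j W = 0 := by
      funext S
      have h5 := (sum_eq_zero_iff_of_nonneg
        (fun S _ => mul_self_nonneg (up n j W S))).1 h2.symm S (mem_univ _)
      simpa using h5
    exact (injective_iff_map_eq_zero _).1 (up_inj j h) W h4
  have h2 := LinearMap.injective_iff_surjective.1 h1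
  intro y
  obtain ⟨x, hx⟩ := h2 y
  exact ⟨up n j x, hx⟩

theorem card_Lv (n j : ℕ) : Fintype.card (Lv n j) = n.choose j := by
  classical
  rw [Fintype.card_subtype]
  have : (univ.filter fun S : Finset (Fin n) => S.card = j) = powersetCard j univ := by
    ext S; simp [mem_powersetCard]
  rw [this, card_powersetCard, card_univ, Fintype.card_fin]

/-- the rank of the inclusion matrix -/
theorem rank_dn (n j : ℕ) :
    Module.finrank ℝ (LinearMap.range (dn n j)) = min (n.choose j) (n.choose (j + 1)) := by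
  have hd1 : Module.finrank ℝ (Lv n (j + 1) → ℝ) = n.choose (j + 1) := by
    rw [Module.finrank_fintype_fun_eq_card, card_Lv]
  have hd0 : Module.finrank ℝ (Lv n j → ℝ) = n.choose j := by
    rw [Module.finrank_fintype_fun_eq_card, card_Lv]
  have hle : Module.finrank ℝ (LinearMap.range (dn n j)) ≤ n.choose j := by
    rw [← hd0]; exact Submodule.finrank_le _
  have hle' : Module.finrank ℝ (LinearMap.range (dn n j)) ≤ n.choose (j + 1) := by
    rw [← hd1]; exact LinearMap.finrank_range_le _
  rcases Nat.lt_or_ge (2 * j) n with h | h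
  · have h1 : Module.finrank ℝ (LinearMap.range (dn n j)) = n.choose j := by
      rw [LinearMap.range_eq_top.2 (dn_surj j h), finrank_top, hd0]
    rw [h1] at hle' ⊢
    exact (min_eq_left hle').symm
  · have h1 : Module.finrank ℝ (LinearMap.range (dn n j)) = n.choose (j + 1) := by
      rw [LinearMap.finrank_range_of_inj (dn_inj j (by omega)), hd1]
    rw [h1] at hle ⊢
    exact (min_eq_right hle).symm

end Pool.H27.STE
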