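import Pool.Agent.H90.STE.Stmts2

/-!
# Sticky Kakeya sets have full Hausdorff dimension, in the chart
-/

set_option autoImplicit false

namespace Pool.STE.SC

open MeasureTheory Set Metric
open scoped RealInnerProductSpace ENNReal NNReal
open Pool.Agent.H53.Kak (E tube)
open Pool.Agent.H55.HDim

lemma box_mono {d : ℕ} {Λ : Set (E d × E d)} {s C C' : ℝ} (h : Box Λ s C) (hC : C ≤ C') :
    Box Λ s C' := by
  intro ρ h0 h1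
  obtain ⟨F, hF, h⟩ := h ρ h0 h1
  exact ⟨F, hF.trans (mul_le_mul_of_nonneg_right hC (Real.rpow_nonneg h0.le _)), h⟩

/-- a piece of positive outer measure -/
lemma piece {X : Type*} [MeasurableSpace X] (μ : Measure X) (S : Set X) (Q : ℕ → ℕ → Set X)
    (hS : S ⊆ ⋃ j, ⋃ m, Q j m) (h : 0 < μ S) : ∃ j m, ∃ α : ℝ, 0 < α ∧
      ENNReal.ofReal α < μ (Q j m) := by
  by_contra hcon
  push Not at hcon
  have h0 : ∀ j m, μ (Q j m) = 0 := by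
    intro j m
    by_contra hne
    obtain ⟨r, hr0, hr1⟩ := ENNReal.lt_iff_exists_real_btwn.mp (pos_iff_ne_zero.mpr hne)
    have hr2 := hr1.1
    have hr3 : 0 < r := by
      by_contra hle
      push Not at hle
      rw [ENNReal.ofReal_eq_zero.mpr hle] at hr2
      exact lt_irrefl _ hr2
    exact absurd (hcon j m r hr3) (not_le.mpr hr1.2)
  have h1 : μ (⋃ j, ⋃ m, Q j m) = 0 := measure_iUnion_null fun j => measure_iUnion_null fun m =>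
    h0 j m
  exact absurd (measure_mono_null hS h1) h.ne'

end Pool.STE.SC

namespace Pool.STE

open MeasureTheory Set Metric SC
open scoped RealInnerProductSpace ENNReal NNReal
open Pool.Agent.H53.Kak (E tube)
open Pool.Agent.H55.HDim

theorem sc2 (hSB : SBStmt) : SC2Stmt := by
  classical
  intro d ε₁ hd hε₁
  obtain ⟨ε, hε⟩ : ∃ ε : ℝ, ε = ε₁ / 2 := ⟨_, rfl⟩
  have hε0 : 0 < ε := by rw [hε]; linarith
  obtain ⟨η₁, P, hη₁, hP0, hSB⟩ := hSB d ε hd hε0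
  refine ⟨η₁ / 2, by positivity, fun K Λ hpack htim hdir => ?_⟩
  rcases le_or_gt ((d : ℝ) + 1 - ε₁) 0 with hneg | hposd
  · rw [ENNReal.ofReal_eq_zero.mpr hneg]; exact zero_le
  by_contra hcon
  push Not at hcon
  obtain ⟨s, hs1, hs2⟩ := ENNReal.lt_iff_exists_nnreal_btwn.mp hcon
  have hs0 : 0 < (s : ℝ) := by
    have : (0 : ℝ≥0∞) < s := lt_of_le_of_lt zero_le hs1
    exact_mod_cast this
  have hs3 : (s : ℝ) < (d : ℝ) + 1 - ε₁ := by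
    have h1 : ENNReal.ofReal (s : ℝ) < ENNReal.ofReal ((d : ℝ) + 1 - ε₁) := by
      rw [ENNReal.ofReal_coe_nnreal]; exact hs2
    exact (ENNReal.ofReal_lt_ofReal_iff hposd).mp h1
  have hzero : μH[(s : ℝ)] K = 0 := hausdorffMeasure_of_dimH_lt hs1
  obtain ⟨Λj, hΛ, hbox⟩ := hpack ((d : ℝ) + η₁) (by linarith)
  choose Cj hCj using hbox
  -- choices for the directions
  obtain ⟨Ω₀, hΩ₀⟩ : ∃ Ω₀ : Set (Fin d → ℝ), Ω₀ = {w : Fin d → ℝ | (∀ i, 0 ≤ w i ∧ w i ≤ 1) ∧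
      ∃ x, (x, edir w) ∈ Λ} := ⟨_, rfl⟩
  rw [← hΩ₀] at hdir
  have hex : ∀ w ∈ Ω₀, ∃ x, (x, edir w) ∈ Λ := fun w hw => by
    rw [hΩ₀] at hw; exact hw.2
  choose! x hx using hex
  obtain ⟨Om₁, hOm₁⟩ : ∃ Om₁ : ℕ → ℕ → Set (Fin d → ℝ), Om₁ = fun (j m : ℕ) =>
      {w | w ∈ Ω₀ ∧ (x w, edir w) ∈ Λj j ∧
        ENNReal.ofReal (1 / ((m : ℝ) + 1)) < volume (Tim K (x w, edir w))} := ⟨_, rfl⟩
  have hOm₁mem : ∀ j m w, w ∈ Om₁ j m ↔ (w ∈ Ω₀ ∧ (x w, edir w) ∈ Λj j ∧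
        ENNReal.ofReal (1 / ((m : ℝ) + 1)) < volume (Tim K (x w, edir w))) := fun j m w => by
    rw [hOm₁]; rfl
  have hcov₁ : Ω₀ ⊆ ⋃ j, ⋃ m, Om₁ j m := by
    intro w hw
    obtain ⟨j, hj⟩ := Set.mem_iUnion.mp (hΛ (hx w hw))
    obtain ⟨r, hr0, hr1⟩ := ENNReal.lt_iff_exists_real_btwn.mp (htim _ (hx w hw))
    have hr3 : 0 < r := by
      by_contra hle
      push Not at hle
      have := hr1.1
      rw [ENNReal.ofReal_eq_zero.mpr hle] at this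
      exact lt_irrefl _ this
    obtain ⟨m, hm⟩ := exists_nat_one_div_lt hr3
    refine Set.mem_iUnion.mpr ⟨j, Set.mem_iUnion.mpr ⟨m, (hOm₁mem _ _ _).mpr ⟨hw, hj, ?_⟩⟩⟩
    exact lt_of_le_of_lt (ENNReal.ofReal_le_ofReal hm.le) hr1.2
  obtain ⟨j, m, α₀, hα₀, hα₁⟩ := piece volume Ω₀ Om₁ hcov₁ hdir
  obtain ⟨Ω₁, hΩ₁⟩ : ∃ Ω₁ : Set (Fin d → ℝ), Ω₁ = Om₁ j m := ⟨_, rfl⟩
  rw [← hΩ₁] at hα₁
  obtain ⟨β₀, hβ₀⟩ : ∃ β₀ : ℝ, β₀ = 1 / ((m : ℝ) + 1) := ⟨_, rfl⟩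
  have hβ₀0 : 0 < β₀ := by rw [hβ₀]; positivity
  have hβ₀1 : β₀ ≤ 1 := by
    rw [hβ₀, div_le_one (by positivity)]
    linarith [Nat.cast_nonneg (α := ℝ) m]
  have hmem₁ : ∀ w ∈ Ω₁, w ∈ Ω₀ ∧ (x w, edir w) ∈ Λj j ∧
      ENNReal.ofReal β₀ < volume (Tim K (x w, edir w)) := fun w hw => by
    rw [hΩ₁] at hw
    rw [hβ₀]
    exact (hOm₁mem _ _ _).mp hw
  have hunit : ∀ w ∈ Ω₁, ∀ i, 0 ≤ w i ∧ w i ≤ 1 := fun w hw => by
    have := (hmem₁ w hw).1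
    rw [hΩ₀] at this
    exact this.1
  obtain ⟨C₀, hC₀⟩ : ∃ C₀ : ℝ, C₀ = max (Cj j) 1 := ⟨_, rfl⟩
  have hC₀0 : 0 < C₀ := by rw [hC₀]; exact lt_of_lt_of_le one_pos (le_max_right _ _)
  have hboxj : Box (Λj j) ((d : ℝ) + η₁) C₀ := box_mono (hCj j) (by rw [hC₀]; exact le_max_left _ _)
  obtain ⟨c, hc0, hSB⟩ := hSB C₀ hC₀0
  -- the constants
  obtain ⟨B, hB⟩ : ∃ B : ℝ, B = c * (4 * β₀) ^ P * (4 * α₀) := ⟨_, rfl⟩
  have hB0 : 0 < B := by rw [hB]; positivity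
  obtain ⟨k₁, hk₁⟩ := eventually_small (C := B⁻¹) (Q := P + 1) hε0
  obtain ⟨k₂, hk₂⟩ := eventually_small (C := c⁻¹ * (4 * α₀)⁻¹) (Q := 1) hc0
  obtain ⟨k₀, hk₀⟩ : ∃ k₀ : ℕ, k₀ = max (max k₁ k₂) 1 := ⟨_, rfl⟩
  have hk₀1 : 1 ≤ k₀ := by rw [hk₀]; exact le_max_right _ _
  have hk₀k₁ : k₁ ≤ k₀ := by rw [hk₀]; exact (le_max_left _ _).trans (le_max_left _ _)
  have hk₀k₂ : k₂ ≤ k₀ := by rw [hk₀]; exact (le_max_right _ _).trans (le_max_left _ _)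
  have hhalf : (0 : ℝ) < 2⁻¹ := by norm_num
  -- the cover
  obtain ⟨ζ, hζ⟩ : ∃ ζ : ℝ, ζ = ((2 : ℝ)⁻¹ ^ k₀) ^ (s : ℝ) := ⟨_, rfl⟩
  have hζ0 : 0 < ζ := by rw [hζ]; positivity
  obtain ⟨y, ρ, hρ0, hcov, hsum⟩ := cover_of_zero K hs0 hzero hζ0
  have hρζ : ∀ n, ρ n ≤ (2 : ℝ)⁻¹ ^ k₀ := by
    intro n
    have h1 : ENNReal.ofReal (ρ n ^ (s : ℝ)) ≤ ENNReal.ofReal ζ :=
      (ENNReal.le_tsum n).trans hsum
    have h2 := (ENNReal.ofReal_le_ofReal_iff hζ0.le).mp h1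
    rw [hζ] at h2
    exact (Real.rpow_le_rpow_iff (hρ0 n).le (by positivity) hs0).mp h2
  have hρ1 : ∀ n, ρ n ≤ 1 := fun n =>
    (hρζ n).trans (pow_le_one₀ (by norm_num) (by norm_num))
  have hk : ∀ n, ∃ k : ℕ, (2 : ℝ)⁻¹ ^ (k + 1) < ρ n ∧ ρ n ≤ (2 : ℝ)⁻¹ ^ k := fun n =>
    exists_nat_pow_near_of_lt_one (hρ0 n) (hρ1 n) (by norm_num) (by norm_num)
  choose kk hkk1 hkk2 using hk
  have hkk0 : ∀ n, k₀ ≤ kk n := by
    intro n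
    by_contra hlt
    push Not at hlt
    have h1 : (2 : ℝ)⁻¹ ^ k₀ ≤ (2 : ℝ)⁻¹ ^ (kk n + 1) :=
      pow_le_pow_of_le_one (by norm_num) (by norm_num) hlt
    linarith [hρζ n, hkk1 n]
  -- segments
  obtain ⟨Qs, hQs⟩ : ∃ Qs : (Fin d → ℝ) → ℕ → Set ℝ, Qs = fun w k =>
      {t | (1 / 4 ≤ t ∧ t ≤ 3 / 4) ∧ ∃ n, kk n = k ∧
        dist (x w + t • edir w) (y n) ≤ (2 : ℝ)⁻¹ ^ k} := ⟨_, rfl⟩
  have hQmem : ∀ w k t, t ∈ Qs w k ↔ ((1 / 4 ≤ t ∧ t ≤ 3 / 4) ∧ ∃ n, kk n = k ∧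
        dist (x w + t • edir w) (y n) ≤ (2 : ℝ)⁻¹ ^ k) := fun w k t => by rw [hQs]; rfl
  have hscale1 : ∀ w ∈ Ω₁, ∃ k, ENNReal.ofReal (4 * β₀ * wt k) ≤ volume (Qs w k) := by
    intro w hw
    refine exists_scale volume (Qs w) (4 * β₀) (by positivity) (Tim K (x w, edir w)) ?_ ?_
    · intro t ht
      obtain ⟨n, hn⟩ := Set.mem_iUnion.mp (hcov ht.2.2)
      refine Set.mem_iUnion.mpr ⟨kk n, (hQmem _ _ _).mpr ⟨⟨ht.1, ht.2.1⟩, n, rfl, ?_⟩⟩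
      exact (mem_closedBall.mp hn).trans (hkk2 n)
    · rw [mul_div_assoc, mul_comm, div_mul_cancel₀ _ (by norm_num : (4 : ℝ) ≠ 0)]
      exact (hmem₁ w hw).2.2
  obtain ⟨Om, hOm⟩ : ∃ Om : ℕ → Set (Fin d → ℝ), Om = fun k =>
      {w | w ∈ Ω₁ ∧ ENNReal.ofReal (4 * β₀ * wt k) ≤ volume (Qs w k)} := ⟨_, rfl⟩
  have hOmmem : ∀ k w, w ∈ Om k ↔ (w ∈ Ω₁ ∧
      ENNReal.ofReal (4 * β₀ * wt k) ≤ volume (Qs w k)) := fun k w => by rw [hOm]; rfl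
  obtain ⟨k, hkΩ⟩ : ∃ k, ENNReal.ofReal (4 * α₀ * wt k) ≤ volume (Om k) := by
    refine exists_scale volume Om (4 * α₀) (by positivity) Ω₁ ?_ ?_
    · intro w hw
      obtain ⟨k, hk⟩ := hscale1 w hw
      exact Set.mem_iUnion.mpr ⟨k, (hOmmem _ _).mpr ⟨hw, hk⟩⟩
    · rw [mul_div_assoc, mul_comm, div_mul_cancel₀ _ (by norm_num : (4 : ℝ) ≠ 0)]
      exact hα₁
  have hwtk := wt_pos k
  have hwt1 : 4 * wt k ≤ 1 := by
    unfold wt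
    rw [mul_one_div, div_le_one (by positivity)]
    nlinarith [Nat.cast_nonneg (α := ℝ) k]
  obtain ⟨δ, hδ⟩ : ∃ δ : ℝ, δ = (2 : ℝ)⁻¹ ^ k := ⟨_, rfl⟩
  have hδ0 : 0 < δ := by rw [hδ]; positivity
  have hk0k : k₀ ≤ k := by
    have h0 : 0 < volume (Om k) :=
      lt_of_lt_of_le (ENNReal.ofReal_pos.mpr (by positivity)) hkΩ
    obtain ⟨w, hw⟩ := nonempty_of_measure_ne_zero h0.ne'
    have h1 := ((hOmmem _ _).mp hw).2
    have h2 : 0 < volume (Qs w k) :=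
      lt_of_lt_of_le (ENNReal.ofReal_pos.mpr (by positivity)) h1
    obtain ⟨t, ht⟩ := nonempty_of_measure_ne_zero h2.ne'
    obtain ⟨-, n, hn, -⟩ := (hQmem _ _ _).mp ht
    rw [← hn]; exact hkk0 n
  have hδ2 : δ ≤ 1 / 2 := by
    rw [hδ]
    calc (2 : ℝ)⁻¹ ^ k ≤ (2 : ℝ)⁻¹ ^ 1 :=
          pow_le_pow_of_le_one (by norm_num) (by norm_num) (hk₀1.trans hk0k)
      _ = 1 / 2 := by norm_num
  -- the balls of this scale
  have hfin := ENNReal.finset_card_const_le_le_of_tsum_le (a := fun n =>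
    ENNReal.ofReal (ρ n ^ (s : ℝ))) ENNReal.ofReal_ne_top hsum
    (ε := ENNReal.ofReal (((2 : ℝ)⁻¹ ^ (k + 1)) ^ (s : ℝ)))
    (ENNReal.ofReal_pos.mpr (by positivity)).ne'
  obtain ⟨hfin1, hfin2⟩ := hfin
  obtain ⟨F, hF⟩ : ∃ F, F = hfin1.toFinset := ⟨_, rfl⟩
  rw [← hF] at hfin2
  have hFmem : ∀ n, kk n = k → n ∈ F := by
    intro n hn
    rw [hF, Set.Finite.mem_toFinset]
    refine ENNReal.ofReal_le_ofReal (Real.rpow_le_rpow (by positivity) ?_ hs0.le)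
    rw [← hn]; exact (hkk1 n).le
  have hFcard : (F.card : ℝ) ≤ δ ^ (-(s : ℝ)) := by
    have h1 : (F.card : ℝ≥0∞) ≤ ENNReal.ofReal (ζ / ((2 : ℝ)⁻¹ ^ (k + 1)) ^ (s : ℝ)) := by
      rw [ENNReal.ofReal_div_of_pos (by positivity)]; exact hfin2
    have h2 : (F.card : ℝ) ≤ ζ / ((2 : ℝ)⁻¹ ^ (k + 1)) ^ (s : ℝ) := by
      rw [← ENNReal.ofReal_natCast] at h1
      exact (ENNReal.ofReal_le_ofReal_iff (by positivity)).mp h1
    refine h2.trans ?_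
    rw [hζ, ← Real.div_rpow (by positivity) (by positivity), hδ, Real.rpow_neg (by positivity),
      ← Real.inv_rpow (by positivity)]
    refine Real.rpow_le_rpow (by positivity) ?_ hs0.le
    rw [div_le_iff₀ (by positivity)]
    have e1 : ((2 : ℝ)⁻¹ ^ k)⁻¹ * (2 : ℝ)⁻¹ ^ (k + 1) = 2⁻¹ ^ 1 := by
      rw [pow_succ]; field_simp
    rw [e1]
    exact pow_le_pow_of_le_one (by norm_num) (by norm_num) hk₀1
  -- one scale
  have hα4 : c⁻¹ * δ ^ c ≤ 4 * α₀ * wt k := by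
    have h1 := hk₂ k (hk₀k₂.trans hk0k)
    rw [Real.rpow_one, ← hδ] at h1
    have h2 : (4 * α₀) * (c⁻¹ * (4 * α₀)⁻¹ * δ ^ c) ≤ (4 * α₀) * wt k :=
      mul_le_mul_of_nonneg_left h1.le (by positivity)
    have h3 : (4 * α₀) * (c⁻¹ * (4 * α₀)⁻¹ * δ ^ c) = c⁻¹ * δ ^ c := by
      field_simp
    rwa [h3] at h2
  have hmain := hSB δ (4 * α₀ * wt k) (4 * β₀ * wt k) hδ0 hδ2 (by positivity)
    (by nlinarith) hα4 (Λj j) hboxj (Om k) x (fun w hw => hunit w ((hOmmem _ _).mp hw).1)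
    (fun w hw => (hmem₁ w ((hOmmem _ _).mp hw).1).2.1) hkΩ F y (by
      intro w hw
      obtain ⟨h1, h2⟩ := (hOmmem _ _).mp hw
      refine ⟨Qs w k, h2, fun t ht => ?_⟩
      obtain ⟨ht1, n, hn, ht2⟩ := (hQmem _ _ _).mp ht
      exact ⟨ht1, n, hFmem n hn, hδ ▸ ht2⟩)
  have hcomb := hmain.trans hFcard
  have hkey := hk₁ k (hk₀k₁.trans hk0k)
  rw [← hδ] at hkey
  have e1 : c * (4 * β₀ * wt k) ^ P * (4 * α₀ * wt k) * δ ^ (-((d : ℝ) + 1 - ε)) =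
      B * wt k ^ (P + 1) * δ ^ (-((d : ℝ) + 1 - ε)) := by
    rw [hB, Real.mul_rpow (by positivity) hwtk.le, Real.rpow_add hwtk, Real.rpow_one]
    ring
  have e2 : δ ^ (-(s : ℝ)) ≤ δ ^ ε * δ ^ (-((d : ℝ) + 1 - ε)) := by
    rw [← Real.rpow_add hδ0]
    refine Real.rpow_le_rpow_of_exponent_ge hδ0 (by linarith) ?_
    rw [hε]; linarith
  replace hcomb := hcomb.trans e2
  rw [e1] at hcomb
  have h5 := le_of_mul_le_mul_right hcomb (Real.rpow_pos_of_pos hδ0 _)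
  have h6 : wt k ^ (P + 1) ≤ B⁻¹ * δ ^ ε := by
    rw [inv_mul_eq_div, le_div_iff₀ hB0, mul_comm]
    exact h5
  exact absurd hkey (not_lt.mpr h6)

theorem sc_thm (hSB : SBStmt) : SCStmt := by
  intro d K Λ hd hpack htim hdir
  have key : ∀ ε : ℝ, 0 < ε → ENNReal.ofReal ((d : ℝ) + 1 - ε) ≤ dimH K := by
    intro ε hε
    obtain ⟨η, hη, h⟩ := sc2 hSB d ε hd hε
    refine h K Λ (fun s' hs' => hpack s' (by linarith)) htim hdir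
  have e : ((d : ℝ≥0∞) + 1) = ENNReal.ofReal ((d : ℝ) + 1) := by
    rw [ENNReal.ofReal_add (by positivity) (by norm_num), ENNReal.ofReal_natCast,
      ENNReal.ofReal_one]
  rw [e]
  refine ENNReal.le_of_forall_pos_le_add fun ε hε _ => ?_
  have h1 := key ε (by exact_mod_cast hε)
  calc ENNReal.ofReal ((d : ℝ) + 1) ≤ ENNReal.ofReal (((d : ℝ) + 1 - ε) + ε) := by
        refine ENNReal.ofReal_le_ofReal (by linarith)
    _ ≤ ENNReal.ofReal ((d : ℝ) + 1 - ε) + ENNReal.ofReal ε := ENNReal.ofReal_add_le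
    _ ≤ dimH K + ε := by
        rw [ENNReal.ofReal_coe_nnreal]
        exact add_le_add h1 le_rfl

end Pool.STE
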